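import Pool.Agent.H83.R.Main

/-!
There is a model of ZFC + CH with a P-point `p` and a non-P-point `x` of `ω*` such that the
Stone-Čech remainders of `ω* ∖ {p}` and of `ω* ∖ {x}` are not homeomorphic.

The model is a countable generic model. The forcing notion is closed under countable decreasing
sequences and adds the P-point `p`, a cofinal family `D` of size `ω₂` of clopen subsets of
`ω* ∖ {x}` that miss the columns of `ω × ω` (here `x` is an ultrafilter that contains no set with
finite columns), and `2 ^ ω₂` many generic clopen subsets of `ω* ∖ {p}`. In the model every clopen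
subset of `ω* ∖ {x}` or its complement is covered, up to a compact set, by a member of `D`. On the
other hand, for every function from `D` to noncompact clopen subsets of `ω* ∖ {p}` there is a
generic clopen set that splits all values of this function.
-/

namespace Pool.Agent.Results.MP_371211_lc.ConsistentDifferentRemainders

open Pool.Agent.H83.F Pool.Agent.H83.R

/-- There is a model `(M, E)` of ZFC (with set `w` of natural numbers) in which the continuum
hypothesis holds, with a P-point `p` and a non-principal ultrafilter `x` that is not a P-point, such
that for all spaces `(X, τ) = ω* ∖ {p}`, `(X', τ') = ω* ∖ {x}` and their Stone-Čech remainders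
`(R, ρ)`, `(R', ρ')` (all in `M`) there is no homeomorphism from `(R, ρ)` to `(R', ρ')` in `M`. -/
theorem result : ∃ (M : Type) (E : M → M → Prop), IsZFCModel E ∧ ∃ w p x : M,
    IsOmega E w ∧ IsCH E w ∧ IsPPoint E w p ∧ IsUF E w x ∧ ¬ IsPPoint E w x ∧
    ∀ X τ R ρ X' τ' R' ρ' : M, IsMinusPt E w p X τ → IsRemainder E w X τ R ρ →
      IsMinusPt E w x X' τ' → IsRemainder E w X' τ' R' ρ' → ¬ ∃ h, IsHomeo E R ρ R' ρ' h :=
  main

end Pool.Agent.Results.MP_371211_lc.ConsistentDifferentRemainders
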